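import Mathlib

/-!
The first player wins the snooker domination game on the grid `P_2 □ P_7`.
-/

namespace Pool.Agent.Results.MP_a0a898_co.GridTwoSeven

open SimpleGraph

/-- `D` is a dominating set of `G`: every vertex lies in `D` or has a neighbour in `D`. -/
def Dominating {V : Type} (G : SimpleGraph V) (D : Finset V) : Prop :=
  ∀ v : V, ∃ u ∈ D, u = v ∨ G.Adj u v

/-- The player to move in the snooker domination game on `G`, when `D` is the (non-dominating) set
of picked vertices, has a winning strategy: either some unpicked vertex makes the set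
dominating, or there is an unpicked vertex `v` such that picking `v` does not finish the game and,
whatever unpicked vertex `w` the opponent picks next, this does not finish the game and the first
player again has a winning strategy. -/
inductive MoverWins {V : Type} [DecidableEq V] (G : SimpleGraph V) : Finset V → Prop
  | finish (D : Finset V) (v : V) (hv : v ∉ D) (hd : Dominating G (insert v D)) : MoverWins G D
  | step (D : Finset V) (v : V) (hv : v ∉ D) (hd : ¬ Dominating G (insert v D))
      (h1 : ∀ w, w ∉ insert v D → ¬ Dominating G (insert w (insert v D)))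
      (h2 : ∀ w, w ∉ insert v D → MoverWins G (insert w (insert v D))) : MoverWins G D

/-- The index of a vertex. -/
def idx (v : Fin 2 × Fin 7) : ℕ := 7 * v.1.val + v.2.val

/-- The vertex with a given index. -/
def vtx (i : ℕ) : Fin 2 × Fin 7 := (Fin.ofNat 2 (i / 7), Fin.ofNat 7 (i % 7))

theorem idx_lt (v : Fin 2 × Fin 7) : idx v < 14 := by
  unfold idx; omega

theorem vtx_idx : ∀ v : Fin 2 × Fin 7, vtx (idx v) = v := by decide

theorem idx_vtx : ∀ i < 14, idx (vtx i) = i := by decide

theorem idx_inj {u v : Fin 2 × Fin 7} (h : idx u = idx v) : u = v := by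
  rw [← vtx_idx u, h, vtx_idx]

/-- The set of vertices coded by a bit mask. -/
def toSet (D : ℕ) : Finset (Fin 2 × Fin 7) := Finset.univ.filter (fun v => D.testBit (idx v) = true)

theorem mem_toSet (D : ℕ) (v : Fin 2 × Fin 7) : v ∈ toSet D ↔ D.testBit (idx v) = true := by
  simp [toSet]

theorem insert_toSet (D : ℕ) (v : Fin 2 × Fin 7) :
    insert v (toSet D) = toSet (D ||| 2 ^ idx v) := by
  ext u
  rw [Finset.mem_insert, mem_toSet, mem_toSet, Nat.testBit_or, Nat.testBit_two_pow]
  simp only [Bool.or_eq_true, decide_eq_true_eq]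
  constructor
  · rintro (h | h)
    · right; rw [h]
    · left; exact h
  · rintro (h | h)
    · right; exact h
    · left; exact (idx_inj h).symm

/-- The closed neighbourhoods as bit masks. -/
def nbs : List ℕ :=
  [131, 263, 526, 1052, 2104, 4208, 8288, 385, 898, 1796, 3592, 7184, 14368, 12352]

/-- The graph. -/
abbrev G : SimpleGraph (Fin 2 × Fin 7) := pathGraph 2 □ pathGraph 7

theorem adj_iff (u v : Fin 2 × Fin 7) : G.Adj u v ↔
    ((u.1.val + 1 = v.1.val ∨ v.1.val + 1 = u.1.val) ∧ u.2 = v.2) ∨
    ((u.2.val + 1 = v.2.val ∨ v.2.val + 1 = u.2.val) ∧ u.1 = v.1) := by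
  simp [G, boxProd_adj, pathGraph_adj]

theorem nbs_spec : ∀ u v : Fin 2 × Fin 7,
    ((nbs.getD (idx v) 0).testBit (idx u) = true ↔ (u = v ∨
    (((u.1.val + 1 = v.1.val ∨ v.1.val + 1 = u.1.val) ∧ u.2 = v.2) ∨
    ((u.2.val + 1 = v.2.val ∨ v.2.val + 1 = u.2.val) ∧ u.1 = v.1)))) := by
  decide +kernel

theorem nbs_lt : ∀ i < 14, nbs.getD i 0 < 2 ^ 14 := by decide

/-- The domination test on bit masks. -/
def domb (D : ℕ) : Bool := (List.range 14).all (fun i => decide (D &&& nbs.getD i 0 ≠ 0))

theorem domb_iff (D : ℕ) : domb D = true ↔ Dominating G (toSet D) := by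
  unfold domb Dominating
  rw [List.all_eq_true]
  constructor
  · intro h v
    have h1 := h (idx v) (List.mem_range.2 (idx_lt v))
    rw [decide_eq_true_eq] at h1
    obtain ⟨i, hi⟩ := Nat.exists_testBit_of_ne_zero h1
    rw [Nat.testBit_and, Bool.and_eq_true] at hi
    have hi14 : i < 14 := by
      by_contra hcon
      have := Nat.testBit_lt_two_pow (lt_of_lt_of_le (nbs_lt (idx v) (idx_lt v))
        (Nat.pow_le_pow_right (by norm_num) (not_lt.1 hcon)))
      rw [this] at hi
      exact absurd hi.2 (by simp)
    refine ⟨vtx i, ?_, ?_⟩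
    · rw [mem_toSet, idx_vtx i hi14]; exact hi.1
    · rw [adj_iff, ← nbs_spec, idx_vtx i hi14]; exact hi.2
  · intro h i hi
    rw [List.mem_range] at hi
    obtain ⟨u, hu, huv⟩ := h (vtx i)
    rw [adj_iff, ← nbs_spec, idx_vtx i hi] at huv
    rw [mem_toSet] at hu
    rw [decide_eq_true_eq]
    intro h0
    have : (D &&& nbs.getD i 0).testBit (idx u) = true := by
      rw [Nat.testBit_and, hu, huv]; rfl
    rw [h0] at this
    simp at this

/-- The certificate: the positions (with the second player to move) reached by the strategy of the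
first player. -/
def L : List ℕ :=
  [2, 26, 35, 59, 70, 94, 162, 167, 186, 439, 602, 675, 1090, 1114, 1630, 2075, 2235, 2306,
   2339, 2466, 2979, 4130, 4150, 4198, 4250, 5190, 6242, 6299, 6914, 7043, 8706, 8774, 8814,
   9794, 10762, 11790, 12406, 12834, 13894, 14946]

/-- The check of the certificate. -/
def ok (D : ℕ) : Bool :=
  (List.range 14).all (fun i => D.testBit i ||
    (!domb (D ||| 2 ^ i) && (List.range 14).any (fun j => !(D ||| 2 ^ i).testBit j &&
      (domb ((D ||| 2 ^ i) ||| 2 ^ j) || L.contains ((D ||| 2 ^ i) ||| 2 ^ j)))))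

theorem check : ∀ D ∈ L, ok D = true ∧ domb D = false := by decide +kernel

theorem main (k : ℕ) : ∀ D ∈ L, 14 - (toSet D).card ≤ k → ∀ w, w ∉ toSet D →
    ¬ Dominating G (insert w (toSet D)) ∧ MoverWins G (insert w (toSet D)) := by
  induction k using Nat.strong_induction_on with
  | _ k ih =>
    intro D hD hk w hw
    obtain ⟨hok, -⟩ := check D hD
    unfold ok at hok
    rw [List.all_eq_true] at hok
    have h1 := hok (idx w) (List.mem_range.2 (idx_lt w))
    rw [mem_toSet] at hw
    have hw' : D.testBit (idx w) = false := by simpa using hw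
    rw [hw', Bool.false_or, Bool.and_eq_true, Bool.not_eq_true'] at h1
    obtain ⟨h2, h3⟩ := h1
    rw [List.any_eq_true] at h3
    obtain ⟨j, hj, h4⟩ := h3
    rw [List.mem_range] at hj
    rw [Bool.and_eq_true, Bool.not_eq_true'] at h4
    obtain ⟨h5, h6⟩ := h4
    rw [insert_toSet]
    have hnd : ¬ Dominating G (toSet (D ||| 2 ^ idx w)) := by
      rw [← domb_iff, h2]; simp
    refine ⟨hnd, ?_⟩
    have hjn : vtx j ∉ toSet (D ||| 2 ^ idx w) := by
      rw [mem_toSet, idx_vtx j hj, h5]; simp
    have hins : insert (vtx j) (toSet (D ||| 2 ^ idx w)) =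
        toSet ((D ||| 2 ^ idx w) ||| 2 ^ j) := by
      rw [insert_toSet, idx_vtx j hj]
    by_cases hdom : domb ((D ||| 2 ^ idx w) ||| 2 ^ j) = true
    · exact MoverWins.finish _ (vtx j) hjn (by rw [hins, ← domb_iff]; exact hdom)
    · have hL : ((D ||| 2 ^ idx w) ||| 2 ^ j) ∈ L := by
        rw [Bool.or_eq_true] at h6
        rcases h6 with h6 | h6
        · exact absurd h6 hdom
        · simpa using h6
      have hcard : (toSet ((D ||| 2 ^ idx w) ||| 2 ^ j)).card = (toSet D).card + 2 := by
        rw [← hins, Finset.card_insert_of_notMem hjn, ← insert_toSet,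
          Finset.card_insert_of_notMem (by rw [mem_toSet, hw']; simp)]
      have hcard14 : (toSet ((D ||| 2 ^ idx w) ||| 2 ^ j)).card ≤ 14 := by
        have := Finset.card_le_univ (toSet ((D ||| 2 ^ idx w) ||| 2 ^ j))
        simpa using this
      have hrec := ih (14 - (toSet ((D ||| 2 ^ idx w) ||| 2 ^ j)).card) (by omega) _ hL le_rfl
      refine MoverWins.step _ (vtx j) hjn ?_ ?_ ?_
      · rw [hins, ← domb_iff]; exact hdom
      · intro u hu
        rw [hins] at hu ⊢
        exact (hrec u hu).1
      · intro u hu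
        rw [hins] at hu ⊢
        exact (hrec u hu).2

/-- The first player has a winning strategy in the snooker domination game on `P_2 □ P_7`. -/
theorem result : MoverWins (pathGraph 2 □ pathGraph 7) (∅ : Finset (Fin 2 × Fin 7)) := by
  have h2L : (2 : ℕ) ∈ L := by decide
  have hins : insert (vtx 1) (∅ : Finset (Fin 2 × Fin 7)) = toSet 2 := by decide
  have hrec := main _ 2 h2L le_rfl
  have hnd : ¬ Dominating G (toSet 2) := by
    rw [← domb_iff]; decide
  refine MoverWins.step _ (vtx 1) (by simp) ?_ ?_ ?_
  · rw [hins]; exact hnd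
  · intro u hu
    rw [hins] at hu ⊢
    exact (hrec u hu).1
  · intro u hu
    rw [hins] at hu ⊢
    exact (hrec u hu).2

end Pool.Agent.Results.MP_a0a898_co.GridTwoSeven
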